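import Pool.Agent.Helper38.WY.Goals2
import Pool.Agent.Helper53.PW.LCLO
import Pool.Agent.Helper14.PW.LRT
import Pool.Agent.Helper27.PW.LDEN
import Pool.Agent.Helper70.PW.LPRM

/-!
# Packet WY-Y_PWA (MP_fc6b1e_nt): `PwT` and `PwAt`; elements close to `1`; descent of `PwT`
-/

set_option autoImplicit false

namespace Pool.Agent.Helper12.WY

open NumberField Module IsDedekindDomain
open Pool.Agent.Helper42.PW Pool.Agent.Helper38.WY

section norms

variable {k : Type} [NormedField k] [IsUltrametricDist k]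

theorem norm_one_of_sub {u : k} (h : ‖u - 1‖ < 1) : ‖u‖ = 1 := by
  have h2 := IsUltrametricDist.norm_eq_of_add_norm_lt_max (x := u) (y := -1) (by
    rw [← sub_eq_add_neg, norm_neg, norm_one]
    exact lt_of_lt_of_le h (le_max_right _ _))
  rw [norm_neg, norm_one] at h2
  exact h2

theorem norm_mul_sub_one {u v : k} {s : ℝ} (hs : s < 1) (h : ‖u - 1‖ ≤ s) (h' : ‖v - 1‖ ≤ s) :
    ‖u * v - 1‖ ≤ s := by
  have e : u * v - 1 = (u - 1) * v + (v - 1) := by ring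
  rw [e]
  refine (IsUltrametricDist.norm_add_le_max _ _).trans (max_le ?_ h')
  rw [norm_mul, norm_one_of_sub (h'.trans_lt hs), mul_one]
  exact h

theorem norm_pow_sub_one {u : k} {s : ℝ} (hs : s < 1) (h : ‖u - 1‖ ≤ s) (n : ℕ) :
    ‖u ^ n - 1‖ ≤ s := by
  have hs0 : 0 ≤ s := (norm_nonneg _).trans h
  induction n with
  | zero =>
    rw [pow_zero, sub_self, norm_zero]
    exact hs0
  | succ n ih =>
    rw [pow_succ]
    exact norm_mul_sub_one hs ih h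

theorem norm_prod_sub_one {ι : Type} (s : Finset ι) (f : ι → k) {r : ℝ} (hr0 : 0 ≤ r) (hr : r < 1)
    (h : ∀ i ∈ s, ‖f i - 1‖ ≤ r) : ‖∏ i ∈ s, f i - 1‖ ≤ r := by
  refine Finset.prod_induction f (fun u => ‖u - 1‖ ≤ r) (fun a b ha hb => ?_) ?_ h
  · exact norm_mul_sub_one hr ha hb
  · show ‖(1 : k) - 1‖ ≤ r
    rw [sub_self, norm_zero]
    exact hr0

/-- An element close to `b`, divided by `b`, is close to `1`. -/
theorem norm_div_sub_one {a b : k} {r : ℝ} (hb : b ≠ 0) (h : ‖a - b‖ ≤ r * ‖b‖) :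
    ‖a * b⁻¹ - 1‖ ≤ r := by
  have hbn : 0 < ‖b‖ := norm_pos_iff.2 hb
  have e1 : a * b⁻¹ - 1 = (a - b) * b⁻¹ := by
    rw [sub_mul, mul_inv_cancel₀ hb]
  rw [e1, norm_mul, norm_inv, ← div_eq_mul_inv, div_le_iff₀ hbn]
  exact h

end norms

section clo

variable (p : ℕ) [hp : Fact p.Prime]

theorem r_lt : (1 / p : ℝ) ^ 3 < 1 := by
  have hp1 : (1 : ℝ) < p := by exact_mod_cast hp.out.one_lt
  refine pow_lt_one₀ (by positivity) ?_ (by norm_num)
  rw [div_lt_one (by linarith)]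
  exact hp1

theorem r_pos : (0 : ℝ) < (1 / p : ℝ) ^ 3 := by
  have hp1 : (1 : ℝ) < p := by exact_mod_cast hp.out.one_lt
  positivity

/-- The closure of the image of a number field is a finite extension of `ℚ_p`. -/
theorem exists_clo {F : Type} [Field F] [NumberField F] (τ : F →+* ℂ_[p]) :
    ∃ 𝓕 : IntermediateField ℚ_[p] ℂ_[p], FiniteDimensional ℚ_[p] 𝓕 ∧
      ∀ y : ℂ_[p], y ∈ 𝓕 ↔ y ∈ closure (Set.range τ) := by
  obtain ⟨𝓕, hfd, h, hdense, -⟩ := Pool.Agent.Helper53.PW.l_clo p ℂ_[p] F τ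
  refine ⟨𝓕, hfd, fun y => ⟨fun hy => ?_, fun hy => ?_⟩⟩
  · rw [Metric.mem_closure_iff]
    intro e he
    obtain ⟨x, hx⟩ := hdense y hy e he
    exact ⟨τ x, ⟨x, rfl⟩, by rwa [dist_eq_norm]⟩
  · have hfd' : FiniteDimensional ℚ_[p] (Subalgebra.toSubmodule 𝓕.toSubalgebra) := hfd
    have hc : IsClosed ((Subalgebra.toSubmodule 𝓕.toSubalgebra : Submodule ℚ_[p] ℂ_[p]) :
        Set ℂ_[p]) := Submodule.closed_of_finiteDimensional _
    have hs : Set.range τ ⊆ ((Subalgebra.toSubmodule 𝓕.toSubalgebra : Submodule ℚ_[p] ℂ_[p]) :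
        Set ℂ_[p]) := by
      rintro _ ⟨x, rfl⟩
      exact h x
    exact closure_minimal hs hc hy

/-- Elements close to `1` are `p`-th powers. -/
theorem pwt_close {F : Type} [Field F] [NumberField F] (τ : F →+* ℂ_[p]) (x : F)
    (hx : ‖τ x - 1‖ ≤ (1 / p : ℝ) ^ 3) : PwT p τ x := by
  obtain ⟨𝓕, hfd, hF⟩ := exists_clo p τ
  have hm : τ x ∈ 𝓕 := (hF _).2 (subset_closure ⟨x, rfl⟩)
  obtain ⟨v, hv, -⟩ := (Pool.Agent.Helper14.PW.l_rt p 𝓕).1 ⟨τ x, hm⟩ hx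
  exact ⟨v, (hF _).1 v.2, congrArg (fun z : 𝓕 => (z : ℂ_[p])) hv⟩

/-- Multiplication with `p`-th powers and coprime powers. -/
theorem pwt_of {F : Type} [Field F] [NumberField F] (τ : F →+* ℂ_[p]) (x y : F) (hx : x ≠ 0)
    (hy : y ≠ 0) (q : ℕ) (hq : q.Coprime p) (h : PwT p τ (x ^ q * y ^ p)) : PwT p τ x := by
  obtain ⟨𝓕, hfd, hF⟩ := exists_clo p τ
  obtain ⟨v, hv, hvp⟩ := h
  have hxm : τ x ∈ 𝓕 := (hF _).2 (subset_closure ⟨x, rfl⟩)
  have hym : τ y ∈ 𝓕 := (hF _).2 (subset_closure ⟨y, rfl⟩)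
  have hvm : v ∈ 𝓕 := (hF _).2 hv
  have hx0 : τ x ≠ 0 := (map_ne_zero τ).2 hx
  have hy0 : τ y ≠ 0 := (map_ne_zero τ).2 hy
  have h1 : (v / τ y) ^ p = τ x ^ q := by
    rw [div_pow, hvp, map_mul, map_pow, map_pow]
    field_simp
  have hw0 : v / τ y ≠ 0 := by
    intro h0
    rw [h0, zero_pow hp.out.ne_zero] at h1
    exact pow_ne_zero q hx0 h1.symm
  have hb : (1 : ℤ) = (q : ℤ) * q.gcdA p + (p : ℤ) * q.gcdB p := by
    have := Nat.gcd_eq_gcd_ab q p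
    rw [Nat.Coprime.gcd_eq_one hq] at this
    exact_mod_cast this
  refine ⟨(v / τ y) ^ (q.gcdA p) * τ x ^ (q.gcdB p), (hF _).1 ?_, ?_⟩
  · exact mul_mem (zpow_mem (div_mem hvm hym) _) (zpow_mem hxm _)
  · have e1 : ((v / τ y) ^ (q.gcdA p)) ^ p = (τ x ^ q) ^ (q.gcdA p) := by
      rw [← h1, ← zpow_natCast, ← zpow_natCast, ← zpow_mul, ← zpow_mul, mul_comm]
    rw [mul_pow, e1, ← zpow_natCast, ← zpow_natCast, ← zpow_mul, ← zpow_mul, ← zpow_add₀ hx0]
    have e2 : (q : ℤ) * q.gcdA p + q.gcdB p * (p : ℤ) = 1 := by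
      rw [hb]
      ring
    rw [e2, zpow_one]

/-- (1) -/
theorem pwat_iff {F : Type} [Field F] [NumberField F] (W : HeightOneSpectrum (𝓞 F))
    (τ : F →+* ℂ_[p]) (hW : ∀ b : 𝓞 F, b ∈ W.asIdeal ↔ ‖τ (b : F)‖ < 1) (x : F) (hx : x ≠ 0) :
    PwAt p W x ↔ PwT p τ x := by
  have hWt : Pool.Agent.Helper32.RDV.wt p τ = W := by
    apply HeightOneSpectrum.ext
    ext b
    exact (Pool.Agent.Helper32.RDV.mem_PI τ b).trans (hW b).symm
  have hWp : W.valuation F (p : F) < 1 := by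
    rw [← hWt]
    exact Pool.Agent.Helper32.RDV.wt_p τ
  have hle : ∀ x : F, W.valuation F x ≤ 1 ↔ ‖τ x‖ ≤ 1 := by
    intro x
    rw [← hWt]
    exact Pool.Agent.Helper70.PW.le_one_iff τ x
  have hτ : ∀ x y : F, W.valuation F x ≤ W.valuation F y ↔ ‖τ x‖ ≤ ‖τ y‖ := by
    intro x y
    by_cases hy : y = 0
    · subst hy
      rw [map_zero, map_zero, norm_zero, norm_le_zero_iff, map_eq_zero, le_zero_iff,
        Valuation.zero_iff]
    · have hy1 : W.valuation F y ≠ 0 := (Valuation.ne_zero_iff _).2 hy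
      have hy2 : 0 < ‖τ y‖ := norm_pos_iff.2 (by
        rw [Ne, map_eq_zero]
        exact hy)
      have h1 := hle (x / y)
      rw [map_div₀, map_div₀, norm_div, div_le_one hy2, div_le_one₀ (zero_lt_iff.2 hy1)] at h1
      exact h1
  have hp3 := r_lt p
  have hp3' := r_pos p
  have hτp : ‖τ ((p : F) ^ 3)‖ = (1 / p : ℝ) ^ 3 := by
    rw [map_pow, map_natCast, norm_pow, Pool.Agent.Helper32.RDV.norm_p' (p := p)]
  have hcl : ∀ u : F, Cl p W u ↔ ‖τ u - 1‖ ≤ (1 / p : ℝ) ^ 3 := by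
    intro u
    have e1 : W.valuation F (u - 1) ≤ W.valuation F (p : F) ^ 3 ↔
        ‖τ u - 1‖ ≤ (1 / p : ℝ) ^ 3 := by
      rw [← map_pow, hτ, hτp, map_sub, map_one]
    constructor
    · intro h
      exact e1.1 h.2
    · intro h
      refine ⟨(e1.2 h).trans_lt ?_, e1.2 h⟩
      exact pow_lt_one₀ zero_le hWp (by norm_num)
  obtain ⟨𝓕, hfd, hF⟩ := exists_clo p τ
  constructor
  · rintro ⟨y, hy⟩
    have h1 := (hcl _).1 hy
    have hy0 : y ≠ 0 := by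
      rintro rfl
      rw [zero_pow hp.out.ne_zero, mul_zero, map_zero, zero_sub, norm_neg, norm_one] at h1
      linarith
    refine pwt_of p τ x y hx hy0 1 (Nat.coprime_one_left p) ?_
    rw [pow_one]
    exact pwt_close p τ _ h1
  · rintro ⟨t, ht, htp⟩
    have ht0 : t ≠ 0 := by
      rintro rfl
      rw [zero_pow hp.out.ne_zero] at htp
      exact (map_ne_zero τ).2 hx htp.symm
    have hti : t⁻¹ ∈ closure (Set.range τ) := (hF _).1 (inv_mem ((hF _).2 ht))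
    have htn : 0 < ‖t‖ := norm_pos_iff.2 ht0
    rw [Metric.mem_closure_iff] at hti
    obtain ⟨_, ⟨y, rfl⟩, hy⟩ := hti ((1 / p : ℝ) ^ 3 * ‖t⁻¹‖)
      (mul_pos hp3' (norm_pos_iff.2 (inv_ne_zero ht0)))
    rw [dist_eq_norm, norm_sub_rev] at hy
    have h1 := norm_div_sub_one (inv_ne_zero ht0) hy.le
    rw [inv_inv] at h1
    have h2 := norm_pow_sub_one hp3 h1 p
    refine ⟨y, (hcl _).2 ?_⟩
    have e1 : τ (x * y ^ p) = (τ y * t) ^ p := by
      rw [mul_pow, htp, map_mul, map_pow, mul_comm]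
    rw [e1]
    exact h2

/-- (3) -/
theorem pwt_desc {F F' : Type} [Field F] [NumberField F] [Field F'] [NumberField F']
    [Algebra F F'] [IsGalois F F'] (hc : (finrank F F').Coprime p) (τ : F' →+* ℂ_[p]) (x : F)
    (hx : x ≠ 0) (h : PwT p τ (algebraMap F F' x)) : PwT p (τ.comp (algebraMap F F')) x := by
  classical
  have hp3 := r_lt p
  have hp3' := r_pos p
  let D : Subgroup (F' ≃ₐ[F] F') :=
    { carrier := {g | ∀ y : F', ‖τ (g y)‖ = ‖τ y‖}
      mul_mem' := fun {a b} ha hb y => by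
        show ‖τ (a (b y))‖ = _
        rw [ha, hb]
      one_mem' := fun y => rfl
      inv_mem' := fun {a} ha y => by
        have h1 := ha (a⁻¹ y)
        have h2 : a (a⁻¹ y) = y := by
          show (a * a⁻¹) y = y
          rw [mul_inv_cancel]
          rfl
        rw [h2] at h1
        exact h1.symm }
  have hD : ∀ g : D, ∀ y : F', ‖τ ((g : F' ≃ₐ[F] F') y)‖ = ‖τ y‖ := fun g => g.2
  have : FiniteDimensional F F' := inferInstance
  have hfin : Finite (F' ≃ₐ[F] F') := inferInstance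
  have hfinD : Finite D := inferInstance
  let _ : Fintype D := Fintype.ofFinite D
  have hq : (Nat.card D).Coprime p := by
    have h1 : Nat.card D ∣ Nat.card (F' ≃ₐ[F] F') := Subgroup.card_subgroup_dvd_card D
    rw [IsGalois.card_aut_eq_finrank] at h1
    exact Nat.Coprime.coprime_dvd_left h1 hc
  obtain ⟨b, hb, hbp⟩ := h
  have hx' : algebraMap F F' x ≠ 0 := (map_ne_zero _).2 hx
  have hb0 : b ≠ 0 := by
    rintro rfl
    rw [zero_pow hp.out.ne_zero] at hbp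
    exact (map_ne_zero τ).2 hx' hbp.symm
  rw [Metric.mem_closure_iff] at hb
  obtain ⟨_, ⟨y, rfl⟩, hy⟩ := hb ((1 / p : ℝ) ^ 3 * ‖b‖) (mul_pos hp3' (norm_pos_iff.2 hb0))
  rw [dist_eq_norm, norm_sub_rev] at hy
  have hy1 := norm_div_sub_one hb0 hy.le
  have hy0 : y ≠ 0 := by
    rintro rfl
    rw [map_zero, zero_mul, zero_sub, norm_neg, norm_one] at hy1
    linarith
  set u : F' := y ^ p * (algebraMap F F' x)⁻¹ with hu
  have hu1 : ‖τ u - 1‖ ≤ (1 / p : ℝ) ^ 3 := by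
    have e1 : τ u = (τ y * b⁻¹) ^ p := by
      rw [mul_pow, inv_pow, hbp, hu, map_mul, map_pow, map_inv₀]
    rw [e1]
    exact norm_pow_sub_one hp3 hy1 p
  have hgu : ∀ g : D, ‖τ ((g : F' ≃ₐ[F] F') u) - 1‖ ≤ (1 / p : ℝ) ^ 3 := by
    intro g
    have e1 : τ ((g : F' ≃ₐ[F] F') u) - 1 = τ ((g : F' ≃ₐ[F] F') (u - 1)) := by
      rw [map_sub (g : F' ≃ₐ[F] F'), map_one, map_sub, map_one]
    rw [e1, hD g, map_sub, map_one]
    exact hu1
  set z : F' := ∏ g : D, (g : F' ≃ₐ[F] F') y with hz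
  have hz0 : z ≠ 0 := by
    rw [hz]
    exact Finset.prod_ne_zero_iff.2 fun g _ => (map_ne_zero (g : F' ≃ₐ[F] F')).2 hy0
  have hzf : ∀ g : F' ≃ₐ[F] F', (∀ y, ‖τ (g y)‖ = ‖τ y‖) → g z = z := by
    intro g hg
    rw [hz, map_prod]
    exact Fintype.prod_equiv (Equiv.mulLeft (⟨g, hg⟩ : D)) _ _ fun h => rfl
  have hzu : ‖τ (z ^ p * ((algebraMap F F' x) ^ Nat.card D)⁻¹) - 1‖ ≤ (1 / p : ℝ) ^ 3 := by
    have e1 : z ^ p * ((algebraMap F F' x) ^ Nat.card D)⁻¹ = ∏ g : D, (g : F' ≃ₐ[F] F') u := by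
      have e2 : ∀ g : D, (g : F' ≃ₐ[F] F') u =
          ((g : F' ≃ₐ[F] F') y) ^ p * (algebraMap F F' x)⁻¹ := by
        intro g
        rw [hu, map_mul, map_pow, map_inv₀, AlgEquiv.commutes]
      rw [Finset.prod_congr rfl fun g _ => e2 g, Finset.prod_mul_distrib, Finset.prod_pow,
        Finset.prod_const, Finset.card_univ, ← Nat.card_eq_fintype_card, inv_pow, ← hz]
    rw [e1, map_prod]
    exact norm_prod_sub_one _ _ hp3'.le hp3 fun g _ => hgu g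
  obtain ⟨C, hC, hCx⟩ := Pool.Agent.Helper27.PW.l_den p ℂ_[p] F F' τ
  have hτz : τ z ≠ 0 := (map_ne_zero τ).2 hz0
  have hτzn : 0 < ‖τ z‖ := norm_pos_iff.2 hτz
  obtain ⟨x₁, hx₁⟩ := hCx z ((1 / p : ℝ) ^ 3 * ‖τ z‖ / C) (by positivity) (by
    intro g hg
    rw [hzf g hg, sub_self, norm_zero]
    positivity)
  rw [mul_div_cancel₀ _ hC.ne'] at hx₁
  have hx₁' := norm_div_sub_one hτz hx₁
  have hx₁0 : x₁ ≠ 0 := by
    rintro rfl
    rw [map_zero, map_zero, zero_mul, zero_sub, norm_neg, norm_one] at hx₁'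
    linarith
  have hfinal : ‖(τ.comp (algebraMap F F')) (x₁ ^ p * (x ^ Nat.card D)⁻¹) - 1‖ ≤
      (1 / p : ℝ) ^ 3 := by
    have e1 : (τ.comp (algebraMap F F')) (x₁ ^ p * (x ^ Nat.card D)⁻¹) =
        (τ (algebraMap F F' x₁) * (τ z)⁻¹) ^ p *
          τ (z ^ p * ((algebraMap F F' x) ^ Nat.card D)⁻¹) := by
      have hzp : τ z ^ p ≠ 0 := pow_ne_zero _ hτz
      have e2 : (τ.comp (algebraMap F F')) (x₁ ^ p * (x ^ Nat.card D)⁻¹) =
          τ (algebraMap F F' x₁) ^ p * (τ (algebraMap F F' x) ^ Nat.card D)⁻¹ := by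
        rw [map_mul, map_inv₀, map_pow, map_pow, RingHom.comp_apply, RingHom.comp_apply]
      have e3 : τ (z ^ p * ((algebraMap F F' x) ^ Nat.card D)⁻¹) =
          τ z ^ p * (τ (algebraMap F F' x) ^ Nat.card D)⁻¹ := by
        rw [map_mul, map_inv₀, map_pow, map_pow]
      rw [e2, e3, mul_pow, inv_pow, mul_assoc, inv_mul_cancel_left₀ hzp]
    rw [e1]
    exact norm_mul_sub_one hp3 (norm_pow_sub_one hp3 hx₁' p) hzu
  have hpw := pwt_close p (τ.comp (algebraMap F F')) _ hfinal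
  -- pass to the inverse
  have hinv : PwT p (τ.comp (algebraMap F F')) (x ^ Nat.card D * (x₁⁻¹) ^ p) := by
    obtain ⟨𝓕, hfd, hF⟩ := exists_clo p (τ.comp (algebraMap F F'))
    obtain ⟨v, hv, hvp⟩ := hpw
    refine ⟨v⁻¹, (hF _).1 (inv_mem ((hF _).2 hv)), ?_⟩
    rw [inv_pow, hvp, ← map_inv₀, mul_inv, inv_inv, inv_pow, mul_comm]
  exact pwt_of p _ x x₁⁻¹ hx (inv_ne_zero hx₁0) _ hq hinv

end clo

theorem y_pwa : Pool.Agent.Helper38.WY.Y_PWA := by
  intro p hp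
  refine ⟨?_, ?_, ?_⟩
  · intro F _ _ W τ hW x hx
    exact pwat_iff p W τ hW x hx
  · intro F _ _ τ x hx
    exact pwt_close p τ x hx
  · intro F F' _ _ _ _ _ _ hc τ x hx h
    exact pwt_desc p hc τ x hx h

end Pool.Agent.Helper12.WY
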